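import Pool.Agent.H18.Beur1

set_option autoImplicit false

namespace Pool.Agent.Results.MP_f46ce3_an.Beurling
open H18.Beur
open scoped NNReal ENNReal

open Classical in
theorem result {X : Type} [MetricSpace X] (o : X) {I : Type} [Nonempty I] (x y : I → X)
    (hxy : ∀ i, x i ≠ y i) (hI : Interp o x y) :
    ∃ f : I → X → ℝ, (∀ i, Lip0 o (f i)) ∧
      (∀ i j, D (x j) (y j) (f i) = if i = j then 1 else 0) ∧
      ∀ p q, p ≠ q → ∑' i, ENNReal.ofReal |D p q (f i)| ≤ const o x y := by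
  by_cases h : const o x y = ⊤
  · choose f h1 h2 using fun i => hI (fun j => if i = j then 1 else 0)
      ⟨1, fun j => by split_ifs <;> simp⟩
    exact ⟨f, h1, h2, fun p q _ => h ▸ le_top⟩
  lift const o x y to ℝ≥0 using h with M hM
  have hd : ∀ i, dist (x i) (y i) ≠ 0 := fun i => dist_ne_zero.2 (hxy i)
  obtain ⟨F, f1, f2, f3⟩ := all_case o x y M.2 (fun δ hδ α hα => by
    have : const o x y < ((M + ⟨δ, hδ.le⟩ : ℝ≥0) : ℝ≥0∞) := by
      rw [← hM]; exact_mod_cast lt_add_of_pos_right M (show (0 : ℝ≥0) < ⟨δ, hδ.le⟩ from hδ)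
    simp only [const, iInf_lt_iff] at this
    obtain ⟨K, ⟨-, hK⟩, lt⟩ := this
    obtain ⟨g, -, g1, g2⟩ := hK α hα
    have lt' : (K : ℝ) ≤ M + δ := by exact_mod_cast lt.le
    exact ⟨g, fun p q => (g1.dist_le_mul p q).trans (mul_le_mul_of_nonneg_right lt' dist_nonneg),
      fun i => (div_eq_iff (hd i)).1 (g2 i)⟩)
  refine ⟨F, fun i => ⟨f1 i, M, LipschitzWith.of_dist_le_mul fun p q => ?_⟩, fun i j => ?_,
    fun p q hpq => ?_⟩
  · simpa [Real.dist_eq] using f3 p q {i}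
  · rw [D, f2]; split_ifs <;> simp [hd]
  · have hp := dist_pos.2 hpq
    rw [ENNReal.tsum_eq_iSup_sum]
    refine iSup_le fun J => ?_
    rw [← ENNReal.ofReal_sum_of_nonneg fun _ _ => abs_nonneg _, ← ENNReal.ofReal_coe_nnreal]
    refine ENNReal.ofReal_le_ofReal ?_
    simp only [D, abs_div, abs_of_pos hp]
    rw [← Finset.sum_div, div_le_iff₀ hp]
    exact f3 p q J

end Pool.Agent.Results.MP_f46ce3_an.Beurling
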